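import Pool.Agent.Helper53.EHP.Test

/-!
# M6: the inequality (STAR)
-/

set_option autoImplicit false

open Real MeasureTheory Set

namespace EHP

variable {ι : Type*} [Fintype ι]

theorem H_pos' {k : ℝ} (hk : 1 < k) : 0 < H k := by
  unfold H
  have : 0 < k := by linarith
  positivity

theorem ss_pos' {k ζ : ℝ} (hk : 1 < k) (hζ : 1 < ζ) : 0 < ss k ζ := by
  unfold ss
  have h1 : 1 / ζ < ζ := by
    rw [div_lt_iff₀ (by linarith)]
    nlinarith
  exact mul_pos (H_pos' hk) (by linarith)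

theorem weight_bound {h Z A y x : ℝ} (hh : 0 < h) (hA : 8 * h ≤ A) (hAZ : A ≤ Z)
    (hx : x ^ 2 ≤ 4 * h) :
    (Z + y ^ 2) * √(4 * h - x ^ 2) / (Z - x ^ 2) ≤ 2 * √h * (1 + y ^ 2 / A) := by
  have hA0 : 0 < A := by linarith
  have hZ0 : 0 < Z := by linarith
  have hZx : 0 < Z - x ^ 2 := by linarith
  have hs0 : 0 ≤ √(4 * h - x ^ 2) := Real.sqrt_nonneg _
  have hs2 : √(4 * h - x ^ 2) ^ 2 = 4 * h - x ^ 2 := Real.sq_sqrt (by linarith)
  have hh2 : √h ^ 2 = h := Real.sq_sqrt hh.le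
  have hh0 : 0 < √h := Real.sqrt_pos.2 hh
  have h1 : Z * √(4 * h - x ^ 2) ≤ 2 * √h * (Z - x ^ 2) := by
    apply le_of_sq_le_sq _ (by positivity)
    have e1 : (Z * √(4 * h - x ^ 2)) ^ 2 = Z ^ 2 * (4 * h - x ^ 2) := by rw [mul_pow, hs2]
    have e2 : (2 * √h * (Z - x ^ 2)) ^ 2 = 4 * h * (Z - x ^ 2) ^ 2 := by
      rw [mul_pow, mul_pow, hh2]; ring
    rw [e1, e2]
    have h3 : 0 ≤ x ^ 2 * (Z * (Z - 8 * h) + 4 * h * x ^ 2) := by
      have : 0 ≤ Z - 8 * h := by linarith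
      positivity
    nlinarith
  have h2 : Z + y ^ 2 ≤ Z * (1 + y ^ 2 / A) := by
    have h3 : y ^ 2 = A * (y ^ 2 / A) := by field_simp
    have h4 : A * (y ^ 2 / A) ≤ Z * (y ^ 2 / A) := by
      apply mul_le_mul_of_nonneg_right hAZ
      positivity
    linarith
  rw [div_le_iff₀ hZx]
  calc (Z + y ^ 2) * √(4 * h - x ^ 2) ≤ Z * (1 + y ^ 2 / A) * √(4 * h - x ^ 2) := by gcongr
    _ = (1 + y ^ 2 / A) * (Z * √(4 * h - x ^ 2)) := by ring
    _ ≤ (1 + y ^ 2 / A) * (2 * √h * (Z - x ^ 2)) := by gcongr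
    _ = _ := by ring

theorem pot_integrable (c t : ι → ℝ) (l r : ℝ) :
    IntervalIntegrable (fun u => pot c t (-1 + u ^ 2)) volume l r := by
  have e : (fun u => pot c t (-1 + u ^ 2)) = ∑ i, fun u => c i * log (-1 + u ^ 2 - t i) := by
    funext u
    simp [pot]
  rw [e]
  apply IntervalIntegrable.sum
  intro i _
  apply IntervalIntegrable.const_mul
  have h : MeromorphicOn (fun u : ℝ => -1 + u ^ 2 - t i) (uIcc l r) := by
    intro x _
    have : AnalyticAt ℝ (fun u : ℝ => -1 + u ^ 2 - t i) x := by fun_prop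
    exact this.meromorphicAt
  exact h.intervalIntegrable_log

/-- the substitution `x = 2 √h cos(θ/2)` -/
theorem subst_int {h : ℝ} (hh : 0 < h) (F : ℝ → ℝ) :
    ∫ θ in (0:ℝ)..π, √h * sin (θ / 2) * F (2 * √h * cos (θ / 2)) = ∫ x in (0:ℝ)..(2 * √h), F x := by
  have hh0 : 0 < √h := Real.sqrt_pos.2 hh
  rw [intervalIntegral.integral_of_le pi_pos.le, intervalIntegral.integral_of_le (by positivity)]
  rw [integral_Ioc_eq_integral_Ioo, integral_Ioc_eq_integral_Ioo]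
  have himg : (fun θ => 2 * √h * cos (θ / 2)) '' Ioo 0 π = Ioo 0 (2 * √h) := by
    ext x
    constructor
    · rintro ⟨θ, ⟨h1, h2⟩, rfl⟩
      have h3 : 0 < cos (θ / 2) := cos_pos_of_mem_Ioo ⟨by linarith, by linarith⟩
      have h4 : cos (θ / 2) < 1 := by
        have h5 := cos_lt_cos_of_nonneg_of_le_pi_div_two (x := 0) (y := θ / 2) le_rfl (by linarith)
          (by linarith)
        rwa [cos_zero] at h5
      exact ⟨by positivity, by nlinarith⟩
    · rintro ⟨h1, h2⟩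
      have h3 : 0 < x / (2 * √h) := by positivity
      have h4 : x / (2 * √h) < 1 := by rw [div_lt_one (by positivity)]; exact h2
      refine ⟨2 * arccos (x / (2 * √h)), ⟨?_, ?_⟩, ?_⟩
      · have := arccos_pos.2 h4
        linarith
      · have := arccos_lt_pi_div_two.2 h3
        linarith
      · dsimp only
        rw [mul_div_cancel_left₀ _ (two_ne_zero), cos_arccos (by linarith) h4.le]
        field_simp
  rw [← himg, integral_image_eq_integral_abs_deriv_smul measurableSet_Ioo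
    (f' := fun θ => 2 * √h * (-sin (θ / 2) * (1 / 2)))]
  · apply setIntegral_congr_fun measurableSet_Ioo
    intro θ hθ
    have h3 : 0 < sin (θ / 2) := sin_pos_of_pos_of_lt_pi (by linarith [hθ.1]) (by linarith [hθ.2, pi_pos])
    have h4 : |2 * √h * (-sin (θ / 2) * (1 / 2))| = √h * sin (θ / 2) := by
      rw [show 2 * √h * (-sin (θ / 2) * (1 / 2)) = -(√h * sin (θ / 2)) by ring, abs_neg,
        abs_of_pos (by positivity)]
    dsimp only
    rw [h4, smul_eq_mul]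
  · intro θ _
    exact ((((hasDerivAt_id θ).div_const 2).cos).const_mul (2 * √h)).hasDerivWithinAt
  · intro θ1 h1 θ2 h2 h12
    have h3 : cos (θ1 / 2) = cos (θ2 / 2) := by
      have : 2 * √h ≠ 0 := by positivity
      exact mul_left_cancel₀ this h12
    have h4 := injOn_cos ⟨by linarith [h1.1], by linarith [h1.2, pi_pos]⟩
      ⟨by linarith [h2.1], by linarith [h2.2, pi_pos]⟩ h3
    linarith

/-- the density in the variable `x` -/
noncomputable def GG (k ζ σ x : ℝ) : ℝ :=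
  2 * ((X k ζ + 1 + yy k σ ^ 2) * √(4 * H k - x ^ 2) / (X k ζ + 1 - x ^ 2)) / ss k ζ *
    (x ^ 2 / (x ^ 2 + yy k σ ^ 2))

theorem wt_GG {k ζ σ θ : ℝ} (hk : 1 < k) (_ : 4 * H k < X k ζ + 1) (h0 : 0 ≤ θ) (h1 : θ ≤ π) :
    wt k ζ σ θ = √(H k) * sin (θ / 2) * GG k ζ σ (2 * √(H k) * cos (θ / 2)) := by
  have hH := H_pos' hk
  have hh2 : √(H k) ^ 2 = H k := Real.sq_sqrt hH.le
  have hs : 0 ≤ sin (θ / 2) := sin_nonneg_of_nonneg_of_le_pi (by linarith) (by linarith)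
  have hc : cos θ = 2 * cos (θ / 2) ^ 2 - 1 := by
    rw [← cos_two_mul]
    ring_nf
  have e1 : (2 * √(H k) * cos (θ / 2)) ^ 2 = 2 * H k * (1 + cos θ) := by
    rw [mul_pow, mul_pow, hh2, hc]
    ring
  have hs2 : sin (θ / 2) ^ 2 = 1 - cos (θ / 2) ^ 2 := by
    have := sin_sq_add_cos_sq (θ / 2)
    linarith
  have e2 : √(4 * H k - (2 * √(H k) * cos (θ / 2)) ^ 2) = 2 * √(H k) * sin (θ / 2) := by
    have : 4 * H k - (2 * √(H k) * cos (θ / 2)) ^ 2 = (2 * √(H k) * sin (θ / 2)) ^ 2 := by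
      rw [mul_pow, mul_pow, mul_pow, mul_pow, hh2, hs2]
      ring
    rw [this, Real.sqrt_sq (by positivity)]
  have e3 : 2 * H k * (1 - cos θ) = 4 * H k * sin (θ / 2) ^ 2 := by
    rw [hs2, hc]
    ring
  unfold wt GG
  rw [e2, e1, e3]
  have e4 : √(H k) * √(H k) = H k := Real.mul_self_sqrt hH.le
  generalize 2 * H k * (1 + cos θ) = ξ
  have e5 : X k ζ - (-1 + ξ) = X k ζ + 1 - ξ := by ring
  rw [e5]
  generalize sin (θ / 2) = s0
  simp only [div_eq_mul_inv, mul_inv]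
  linear_combination (-4 * s0 ^ 2 * ((X k ζ + 1 + yy k σ ^ 2) * (X k ζ + 1 - ξ)⁻¹ *
    (ss k ζ)⁻¹ * ξ * (ξ + yy k σ ^ 2)⁻¹)) * e4

theorem GG_measurable (k ζ σ : ℝ) : Measurable (GG k ζ σ) := by
  unfold GG
  fun_prop

/-- `(STAR)` for one point `z = X k ζ` -/
theorem star_one {c t : ι → ℝ} {k ζ σ a : ℝ} (hk : 1 < k) (hζ : 1 < ζ) (ha : 8 * H k - 1 ≤ a)
    (haz : a ≤ X k ζ) :
    -((1 / π) * ∫ θ in (0:ℝ)..π, wt k ζ σ θ * pot c t (-1 + 2 * H k * (1 + cos θ))) ≤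
      2 / π * (2 * √(H k)) / ss k ζ * ∫ x in (0:ℝ)..√(1 + a),
        max 0 (-pot c t (-1 + x ^ 2)) * ((1 + yy k σ ^ 2 / (a + 1)) * (x ^ 2 / (x ^ 2 + yy k σ ^ 2))) := by
  have hH := H_pos' hk
  have hh0 : 0 < √(H k) := Real.sqrt_pos.2 hH
  have hh2 : √(H k) ^ 2 = H k := Real.sq_sqrt hH.le
  have hss := ss_pos' hk hζ
  have hZ : 4 * H k < X k ζ + 1 := by linarith
  obtain ⟨P, hP⟩ : ∃ P : ℝ → ℝ, P = fun x => pot c t (-1 + x ^ 2) := ⟨_, rfl⟩
  obtain ⟨K, hK⟩ : ∃ K : ℝ → ℝ, K = fun x => (1 + yy k σ ^ 2 / (a + 1)) *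
    (x ^ 2 / (x ^ 2 + yy k σ ^ 2)) := ⟨_, rfl⟩
  have hPi : ∀ l r, IntervalIntegrable P volume l r := by
    intro l r
    rw [hP]
    exact pot_integrable c t l r
  -- change of variables
  have e1 : ∫ θ in (0:ℝ)..π, wt k ζ σ θ * pot c t (-1 + 2 * H k * (1 + cos θ)) =
      ∫ x in (0:ℝ)..(2 * √(H k)), GG k ζ σ x * P x := by
    rw [← subst_int hH]
    apply intervalIntegral.integral_congr
    intro θ hθ
    rw [uIcc_of_le pi_pos.le] at hθ
    dsimp only
    have e2 : (2 * √(H k) * cos (θ / 2)) ^ 2 = 2 * H k * (1 + cos θ) := by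
      have hc : cos θ = 2 * cos (θ / 2) ^ 2 - 1 := by
        rw [← cos_two_mul]
        ring_nf
      rw [mul_pow, mul_pow, hh2, hc]
      ring
    rw [wt_GG hk hZ hθ.1 hθ.2, hP]
    dsimp only
    rw [e2]
    ring
  -- bounds of the density
  have hfr : ∀ x : ℝ, 0 ≤ x ^ 2 / (x ^ 2 + yy k σ ^ 2) ∧ x ^ 2 / (x ^ 2 + yy k σ ^ 2) ≤ 1 := by
    intro x
    constructor
    · positivity
    · rcases (by positivity : 0 ≤ x ^ 2 + yy k σ ^ 2).eq_or_lt with h | h
      · rw [← h]; simp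
      · rw [div_le_one h]
        nlinarith [sq_nonneg (yy k σ)]
  have hc1 : 0 ≤ 1 + yy k σ ^ 2 / (a + 1) := by
    have : 0 < a + 1 := by linarith
    positivity
  have hG : ∀ x, 0 ≤ x → x ≤ 2 * √(H k) → 0 ≤ GG k ζ σ x ∧
      GG k ζ σ x ≤ 2 * (2 * √(H k)) / ss k ζ * K x := by
    intro x h0 h1
    have hx2 : x ^ 2 ≤ 4 * H k := by
      calc x ^ 2 ≤ (2 * √(H k)) ^ 2 := by gcongr
        _ = 4 * H k := by rw [mul_pow, hh2]; ring
    have hw := weight_bound (y := yy k σ) hH (by linarith : 8 * H k ≤ a + 1)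
      (by linarith : a + 1 ≤ X k ζ + 1) hx2
    have hpos : 0 ≤ (X k ζ + 1 + yy k σ ^ 2) * √(4 * H k - x ^ 2) / (X k ζ + 1 - x ^ 2) := by
      have : 0 < X k ζ + 1 := by linarith
      have : 0 < X k ζ + 1 - x ^ 2 := by linarith
      positivity
    constructor
    · unfold GG
      have := (hfr x).1
      positivity
    · rw [hK]
      unfold GG
      dsimp only
      have h3 := (hfr x).1
      calc 2 * ((X k ζ + 1 + yy k σ ^ 2) * √(4 * H k - x ^ 2) / (X k ζ + 1 - x ^ 2)) / ss k ζ *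
            (x ^ 2 / (x ^ 2 + yy k σ ^ 2)) ≤ 2 * (2 * √(H k) * (1 + yy k σ ^ 2 / (a + 1))) / ss k ζ *
            (x ^ 2 / (x ^ 2 + yy k σ ^ 2)) := by gcongr
        _ = _ := by ring
  have hKm : Measurable K := by
    rw [hK]
    fun_prop
  have hKb : ∀ x, 0 ≤ K x ∧ K x ≤ 1 + yy k σ ^ 2 / (a + 1) := by
    intro x
    rw [hK]
    dsimp only
    exact ⟨mul_nonneg hc1 (hfr x).1, mul_le_of_le_one_right hc1 (hfr x).2⟩
  obtain ⟨Mx, hMx⟩ : ∃ Mx : ℝ → ℝ, Mx = fun x => max 0 (-P x) := ⟨_, rfl⟩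
  have hMi : ∀ l r, IntervalIntegrable Mx volume l r := by
    intro l r
    rw [hMx]
    have h0 : IntervalIntegrable (fun _ : ℝ => (0 : ℝ)) volume l r := intervalIntegrable_const
    have h1 := (hPi l r).neg
    exact ⟨h0.1.sup h1.1, h0.2.sup h1.2⟩
  have hMK : ∀ l r, IntervalIntegrable (fun x => Mx x * K x) volume l r := by
    intro l r
    rw [intervalIntegrable_iff] at *
    have h1 := hMi l r
    rw [intervalIntegrable_iff] at h1
    refine h1.mul_bdd (c := 1 + yy k σ ^ 2 / (a + 1)) hKm.aestronglyMeasurable ?_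
    filter_upwards with x
    rw [Real.norm_eq_abs, abs_of_nonneg (hKb x).1]
    exact (hKb x).2
  have h2H : (0:ℝ) ≤ 2 * √(H k) := by positivity
  have hGP : IntervalIntegrable (fun x => GG k ζ σ x * P x) volume 0 (2 * √(H k)) := by
    rw [intervalIntegrable_iff_integrableOn_Ioc_of_le h2H]
    have h1 := hPi 0 (2 * √(H k))
    rw [intervalIntegrable_iff_integrableOn_Ioc_of_le h2H] at h1
    refine Integrable.bdd_mul (c := 2 * (2 * √(H k)) / ss k ζ * (1 + yy k σ ^ 2 / (a + 1))) h1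
      (GG_measurable k ζ σ).aestronglyMeasurable ?_
    filter_upwards [ae_restrict_mem measurableSet_Ioc] with x hx
    obtain ⟨g1, g2⟩ := hG x hx.1.le hx.2
    rw [Real.norm_eq_abs, abs_of_nonneg g1]
    refine g2.trans ?_
    gcongr
    exact (hKb x).2
  have hstep : -(∫ x in (0:ℝ)..(2 * √(H k)), GG k ζ σ x * P x) ≤
      2 * (2 * √(H k)) / ss k ζ * ∫ x in (0:ℝ)..(2 * √(H k)), Mx x * K x := by
    rw [← intervalIntegral.integral_neg, ← intervalIntegral.integral_const_mul]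
    apply intervalIntegral.integral_mono_on h2H hGP.neg ((hMK _ _).const_mul _)
    intro x hx
    obtain ⟨g1, g2⟩ := hG x hx.1 hx.2
    have h1 : -P x ≤ Mx x := by rw [hMx]; exact le_max_right _ _
    have h2 : 0 ≤ Mx x := by rw [hMx]; exact le_max_left _ _
    calc -(GG k ζ σ x * P x) = GG k ζ σ x * (-P x) := by ring
      _ ≤ GG k ζ σ x * Mx x := by gcongr
      _ ≤ (2 * (2 * √(H k)) / ss k ζ * K x) * Mx x := by gcongr
      _ = _ := by ring
  have hext : ∫ x in (0:ℝ)..(2 * √(H k)), Mx x * K x ≤ ∫ x in (0:ℝ)..√(1 + a), Mx x * K x := by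
    have h1 : 2 * √(H k) ≤ √(1 + a) := by
      apply Real.le_sqrt_of_sq_le
      rw [mul_pow, hh2]
      linarith
    have h2 := intervalIntegral.integral_add_adjacent_intervals (hMK 0 (2 * √(H k)))
      (hMK (2 * √(H k)) √(1 + a))
    have h3 : 0 ≤ ∫ x in (2 * √(H k))..√(1 + a), Mx x * K x := by
      apply intervalIntegral.integral_nonneg h1
      intro x _
      have h2 : 0 ≤ Mx x := by rw [hMx]; exact le_max_left _ _
      exact mul_nonneg h2 (hKb x).1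
    linarith
  rw [e1]
  have hfin : ∫ x in (0:ℝ)..√(1 + a), max 0 (-pot c t (-1 + x ^ 2)) *
      ((1 + yy k σ ^ 2 / (a + 1)) * (x ^ 2 / (x ^ 2 + yy k σ ^ 2))) =
      ∫ x in (0:ℝ)..√(1 + a), Mx x * K x := by
    rw [hMx, hK, hP]
  rw [hfin]
  calc -((1 / π) * ∫ x in (0:ℝ)..(2 * √(H k)), GG k ζ σ x * P x) =
        (1 / π) * -(∫ x in (0:ℝ)..(2 * √(H k)), GG k ζ σ x * P x) := by ring
    _ ≤ (1 / π) * (2 * (2 * √(H k)) / ss k ζ * ∫ x in (0:ℝ)..(2 * √(H k)), Mx x * K x) := by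
        gcongr
    _ ≤ (1 / π) * (2 * (2 * √(H k)) / ss k ζ * ∫ x in (0:ℝ)..√(1 + a), Mx x * K x) := by
        gcongr
    _ = _ := by ring

theorem star {c t : ι → ℝ} {a b m e α : ℝ} (N : Nrm c t a b m e α) {k u v wa wb σ : ℝ} (hk : 1 < k)
    (hu : 1 < u) (huk : u < k) (hkv : k < v) (ha : a = X k u) (hb : b = X k v) (hq : 8 * H k - 1 ≤ a)
    (hwa : 0 ≤ wa) (hwb : 0 ≤ wb) (hσ : 1 ≤ σ) :
    -(wb * Phi k m v) - wa * Phi k m u ≤
      π / 2 * rho k u v wa wb * yy k σ * SS σ * (QQ k m σ - pot c t (-1 - yy k σ ^ 2))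
      + rho k u v wa wb * ∫ x in (0:ℝ)..√(1 + a),
          max 0 (-pot c t (-1 + x ^ 2)) * ((1 + yy k σ ^ 2 / (a + 1)) * (x ^ 2 / (x ^ 2 + yy k σ ^ 2))) := by
  have hH := H_pos' hk
  have hh2 : √(H k) * √(H k) = H k := Real.mul_self_sqrt hH.le
  have hv : 1 < v := by linarith
  have hab : a ≤ b := by linarith [N.a_hi, N.b_lo]
  have hsu := ss_pos' hk hu
  have hsv := ss_pos' hk hv
  have t1 := test_ineq N.toSys hk hu (by linarith [huk] : u < k).ne hσ N.mass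
    (by intro i; rw [← ha]; exact N.split i)
  have t2 := test_ineq N.toSys hk hv hkv.ne' hσ N.mass (by
    intro i
    rw [← hb]
    rcases N.split i with h | h
    · left; linarith
    · right; exact h)
  rw [← ha, N.pa] at t1
  rw [← hb, N.pb] at t2
  have s1 := star_one (c := c) (t := t) (σ := σ) hk hu hq (by rw [ha])
  have s2 := star_one (c := c) (t := t) (σ := σ) hk hv hq (by rw [← hb]; exact hab)
  have hrho : rho k u v wa wb = 2 / π * (2 * √(H k)) / ss k u * wa + 2 / π * (2 * √(H k)) / ss k v * wb := by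
    unfold rho
    ring
  have hcoef : π / 2 * rho k u v wa wb * yy k σ * SS σ =
      H k * (σ ^ 2 - 1 / σ ^ 2) / ss k u * wa + H k * (σ ^ 2 - 1 / σ ^ 2) / ss k v * wb := by
    have hσ0 : σ ≠ 0 := by linarith
    rw [hrho]
    unfold yy SS
    have e1 : √(H k) * (√(H k) * (σ - 1 / σ)) * ((σ + 1 / σ) / 2) * 2 = H k * (σ ^ 2 - 1 / σ ^ 2) := by
      rw [← mul_assoc √(H k), hh2]
      field_simp
      ring
    rw [← e1]
    have hpi := pi_ne_zero
    field_simp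
  rw [hcoef, hrho]
  generalize (∫ x in (0:ℝ)..√(1 + a), max 0 (-pot c t (-1 + x ^ 2)) *
    ((1 + yy k σ ^ 2 / (a + 1)) * (x ^ 2 / (x ^ 2 + yy k σ ^ 2)))) = I at *
  generalize ((1 / π) * ∫ θ in (0:ℝ)..π, wt k u σ θ * pot c t (-1 + 2 * H k * (1 + cos θ))) = Iu at *
  generalize ((1 / π) * ∫ θ in (0:ℝ)..π, wt k v σ θ * pot c t (-1 + 2 * H k * (1 + cos θ))) = Iv at *
  have u1 := mul_le_mul_of_nonneg_left t1 hwa
  have u2 := mul_le_mul_of_nonneg_left t2 hwb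
  have u3 := mul_le_mul_of_nonneg_left s1 hwa
  have u4 := mul_le_mul_of_nonneg_left s2 hwb
  linarith

end EHP
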