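import Pool.Agent.Helper63.EHP.Pot

/-!
# M5 TEST: the test inequality (written by helper42)
-/

set_option autoImplicit false

open Real MeasureTheory Set

namespace EHP

variable {ι : Type*} [Fintype ι]

/-- weight of the test measure on `J` against `dθ/π` -/
noncomputable def wt (k ζ σ θ : ℝ) : ℝ :=
  (X k ζ + 1 + yy k σ ^ 2) / ss k ζ * ((2 * H k * (1 + cos θ)) * (2 * H k * (1 - cos θ))) /
    ((X k ζ - (-1 + 2 * H k * (1 + cos θ))) * (2 * H k * (1 + cos θ) + yy k σ ^ 2))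

/-! ### auxiliary facts -/


theorem Lam_eq {k : ℝ} (hk : 1 < k) : Lam k = -log (H k) := by
  unfold Lam H
  rw [← log_inv, inv_div]

theorem yy_sq {k σ : ℝ} (hk : 1 < k) : yy k σ ^ 2 = H k * (σ - 1 / σ) ^ 2 := by
  unfold yy
  rw [mul_pow, sq_sqrt (H_pos hk).le]

theorem pk_zero (θ : ℝ) : pk 0 θ = 1 := by unfold pk; norm_num

theorem pk_cont {r : ℝ} (hr : |r| < 1) : Continuous (fun θ => pk r θ) := by
  unfold pk
  refine Continuous.div (by fun_prop) (by fun_prop) fun θ => ?_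
  have h1 := abs_lt.1 hr
  have h2 := neg_one_le_cos θ
  have h3 := cos_le_one θ
  have : 0 < 1 + r ^ 2 - 2 * r * cos θ := by
    rcases le_total 0 r with h | h
    · nlinarith [mul_nonneg h (sub_nonneg.2 h3), mul_pos (sub_pos.2 h1.2) (sub_pos.2 h1.2)]
    · nlinarith [mul_nonneg (neg_nonneg.2 h) (neg_le_iff_add_nonneg.1 h2),
        mul_pos (neg_lt_iff_pos_add.1 h1.1) (neg_lt_iff_pos_add.1 h1.1)]
  exact this.ne'

theorem log_int (k t : ℝ) :
    IntervalIntegrable (fun θ => log (-1 + 2 * H k * (1 + cos θ) - t)) volume 0 π := by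
  have h : AnalyticOnNhd ℝ (fun θ : ℝ => -1 + 2 * H k * (1 + cos θ) - t) univ := by
    intro θ _
    fun_prop
  exact (h.meromorphicOn.mono_set (subset_univ _)).intervalIntegrable_log

/-- Poisson integral of a logarithm -/
noncomputable def II (k r t : ℝ) : ℝ :=
  (1 / π) * ∫ θ in (0:ℝ)..π, pk r θ * log (-1 + 2 * H k * (1 + cos θ) - t)

theorem pk_log_int {r : ℝ} (k t : ℝ) (hr : |r| < 1) :
    IntervalIntegrable (fun θ => pk r θ * log (-1 + 2 * H k * (1 + cos θ) - t)) volume 0 π :=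
  (log_int k t).continuousOn_mul (pk_cont hr).continuousOn

/-- `M` -/
noncomputable def MM (k ζ σ : ℝ) : ℝ := (X k ζ + 1 + yy k σ ^ 2) / ss k ζ

/-- `ε` -/
noncomputable def ep (k ζ σ : ℝ) : ℝ := H k * (σ ^ 2 - 1 / σ ^ 2) / ss k ζ

theorem ss_pos {k ζ : ℝ} (hk : 1 < k) (hζ : 1 < ζ) : 0 < ss k ζ := by
  unfold ss
  have : 1 / ζ < 1 := by rw [div_lt_one (by linarith)]; exact hζ
  exact mul_pos (H_pos hk) (by linarith)

theorem wt_eq {k ζ σ θ : ℝ} (hk : 1 < k) (hζ : 1 < ζ) (hσ : 1 ≤ σ) (hθ : -1 < cos θ) :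
    wt k ζ σ θ = MM k ζ σ - pk (1 / ζ) θ - ep k ζ σ * pk (-1 / σ ^ 2) θ := by
  have hH := H_pos hk
  have hc := cos_le_one θ
  have h0 : 0 < ζ := by linarith
  have hσ0 : 0 < σ := by linarith
  have e1 : pk (1 / ζ) θ = (ζ ^ 2 - 1) / (ζ ^ 2 + 1 - 2 * ζ * cos θ) := by
    unfold pk
    have : 0 < ζ ^ 2 + 1 - 2 * ζ * cos θ := by nlinarith [sq_nonneg (ζ - 1)]
    have h2 : 1 + (1 / ζ) ^ 2 - 2 * (1 / ζ) * cos θ = (ζ ^ 2 + 1 - 2 * ζ * cos θ) / ζ ^ 2 := by
      field_simp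
    rw [h2]
    field_simp
  have e2 : pk (-1 / σ ^ 2) θ = (σ ^ 4 - 1) / (σ ^ 4 + 1 + 2 * σ ^ 2 * cos θ) := by
    unfold pk
    have : 0 < σ ^ 4 + 1 + 2 * σ ^ 2 * cos θ := by
      nlinarith [sq_nonneg (σ ^ 2 - 1), sq_pos_of_pos hσ0]
    have h2 : 1 + (-1 / σ ^ 2) ^ 2 - 2 * (-1 / σ ^ 2) * cos θ =
      (σ ^ 4 + 1 + 2 * σ ^ 2 * cos θ) / σ ^ 4 := by
      field_simp
      ring
    rw [h2]
    field_simp
  have p1 : 0 < ζ ^ 2 + 1 - 2 * ζ * cos θ := by nlinarith [sq_nonneg (ζ - 1)]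
  have p2 : 0 < σ ^ 4 + 1 + 2 * σ ^ 2 * cos θ := by
    nlinarith [sq_nonneg (σ ^ 2 - 1), sq_pos_of_pos hσ0]
  have p3 : 0 < ζ ^ 2 - 1 := by nlinarith
  rw [e1, e2]
  unfold wt MM ep
  rw [yy_sq hk]
  have f1 : X k ζ - (-1 + 2 * H k * (1 + cos θ)) = H k * (ζ ^ 2 + 1 - 2 * ζ * cos θ) / ζ := by
    unfold X; field_simp; ring
  have f2 : 2 * H k * (1 + cos θ) + H k * (σ - 1 / σ) ^ 2 =
      H k * (σ ^ 4 + 1 + 2 * σ ^ 2 * cos θ) / σ ^ 2 := by
    field_simp; ring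
  have f3 : X k ζ + 1 + H k * (σ - 1 / σ) ^ 2 =
      H k * ((ζ + 1) ^ 2 * σ ^ 2 + (σ ^ 2 - 1) ^ 2 * ζ) / (ζ * σ ^ 2) := by
    unfold X; field_simp; ring
  have f4 : ss k ζ = H k * (ζ ^ 2 - 1) / ζ := by
    unfold ss; field_simp
  rw [f1, f2, f3, f4]
  obtain ⟨D1, hD1⟩ : ∃ D, D = ζ ^ 2 + 1 - 2 * ζ * cos θ := ⟨_, rfl⟩
  obtain ⟨D2, hD2⟩ : ∃ D, D = σ ^ 4 + 1 + 2 * σ ^ 2 * cos θ := ⟨_, rfl⟩
  obtain ⟨D3, hD3⟩ : ∃ D, D = ζ ^ 2 - 1 := ⟨_, rfl⟩
  rw [← hD1] at p1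
  rw [← hD2] at p2
  rw [← hD3] at p3
  rw [← hD1, ← hD2, ← hD3]
  field_simp
  rw [hD1, hD2, hD3]
  ring

theorem wt_int {k ζ σ : ℝ} (t : ℝ) (hk : 1 < k) (hζ : 1 < ζ) (hσ : 1 ≤ σ) :
    IntervalIntegrable (fun θ => wt k ζ σ θ * log (-1 + 2 * H k * (1 + cos θ) - t)) volume 0 π ∧
    (1 / π) * ∫ θ in (0:ℝ)..π, wt k ζ σ θ * log (-1 + 2 * H k * (1 + cos θ) - t) =
      MM k ζ σ * II k 0 t - II k (1 / ζ) t - ep k ζ σ * II k (-1 / σ ^ 2) t := by
  have hr1 : |1 / ζ| < 1 := by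
    rw [abs_of_pos (by positivity), div_lt_one (by linarith)]; exact hζ
  have hae : ∀ᵐ θ ∂volume, θ ∈ uIoc (0:ℝ) π →
      (MM k ζ σ * (pk 0 θ * log (-1 + 2 * H k * (1 + cos θ) - t)) -
        pk (1 / ζ) θ * log (-1 + 2 * H k * (1 + cos θ) - t) -
        ep k ζ σ * (pk (-1 / σ ^ 2) θ * log (-1 + 2 * H k * (1 + cos θ) - t))) =
      wt k ζ σ θ * log (-1 + 2 * H k * (1 + cos θ) - t) := by
    have h1 : ∀ᵐ θ ∂(volume : Measure ℝ), θ ≠ π := by
      simp [ae_iff, measure_singleton]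
    filter_upwards [h1] with θ h2 h3
    rw [uIoc_of_le pi_pos.le] at h3
    have h4 : -1 < cos θ := by
      have : cos π < cos θ := by
        apply cos_lt_cos_of_nonneg_of_le_pi h3.1.le le_rfl
        exact lt_of_le_of_ne h3.2 h2
      simpa using this
    rw [wt_eq hk hζ hσ h4, pk_zero]
    ring
  -- third term
  have h3i : IntervalIntegrable (fun θ => ep k ζ σ * (pk (-1 / σ ^ 2) θ *
      log (-1 + 2 * H k * (1 + cos θ) - t))) volume 0 π := by
    rcases eq_or_lt_of_le hσ with h | h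
    · have : ep k ζ σ = 0 := by unfold ep; rw [← h]; norm_num
      simp only [this, zero_mul]
      exact intervalIntegrable_const
    · refine (pk_log_int k t ?_).const_mul _
      rw [abs_div, abs_neg, abs_one, abs_of_pos (by positivity), div_lt_one (by positivity)]
      nlinarith
  have h1i := (pk_log_int (r := 0) k t (by norm_num)).const_mul (MM k ζ σ)
  have h2i := pk_log_int k t hr1
  constructor
  · refine ((h1i.sub h2i).sub h3i).congr_ae ?_
    rw [Filter.EventuallyEq, ae_restrict_iff' measurableSet_uIoc]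
    exact hae
  · rw [← intervalIntegral.integral_congr_ae hae]
    rw [intervalIntegral.integral_sub (h1i.sub h2i) h3i, intervalIntegral.integral_sub h1i h2i,
      intervalIntegral.integral_const_mul, intervalIntegral.integral_const_mul]
    unfold II
    ring


/-! ### the potential of the test measure at one point -/

/-- potential of the test measure at `t` -/
noncomputable def VV (k ζ σ t : ℝ) : ℝ :=
  log (X k ζ - t) + ep k ζ σ * log (-1 - yy k σ ^ 2 - t) +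
    (MM k ζ σ * II k 0 t - II k (1 / ζ) t - ep k ζ σ * II k (-1 / σ ^ 2) t)

theorem ep_one (k ζ : ℝ) : ep k ζ 1 = 0 := by unfold ep; norm_num

theorem abs_inv_lt {ζ : ℝ} (hζ : 1 < ζ) : |1 / ζ| < 1 := by
  rw [abs_of_pos (by positivity), div_lt_one (by linarith)]; exact hζ

theorem abs_sq_lt {σ : ℝ} (h : 1 < σ) : |-1 / σ ^ 2| < 1 := by
  rw [abs_div, abs_neg, abs_one, abs_of_pos (by positivity), div_lt_one (by positivity)]
  nlinarith

theorem V_J {k ζ σ φ : ℝ} (hk : 1 < k) (hζ : 1 < ζ) (hσ : 1 ≤ σ) :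
    VV k ζ σ (-1 + 2 * H k * (1 + cos φ)) =
      log ζ + ep k ζ σ * (2 * log σ) - MM k ζ σ * Lam k := by
  have hH := H_pos hk
  have hc := cos_le_one φ
  have hc' := neg_one_le_cos φ
  have h0 : 0 < ζ := by linarith
  have i0 : II k 0 (-1 + 2 * H k * (1 + cos φ)) = -Lam k := by
    unfold II
    rw [pot_J hk (by norm_num)]
    norm_num
  have i1 : II k (1 / ζ) (-1 + 2 * H k * (1 + cos φ)) =
      -Lam k + log (1 + (1 / ζ) ^ 2 - 2 * (1 / ζ) * cos φ) := pot_J hk (abs_inv_lt hζ)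
  have p1 : 0 < 1 + (1 / ζ) ^ 2 - 2 * (1 / ζ) * cos φ := by
    have : 1 / ζ < 1 := by rw [div_lt_one h0]; exact hζ
    have h2 : 0 < 1 / ζ := by positivity
    nlinarith [mul_nonneg h2.le (sub_nonneg.2 hc), mul_pos (sub_pos.2 this) (sub_pos.2 this)]
  have l1 : log (X k ζ - (-1 + 2 * H k * (1 + cos φ))) =
      -Lam k + log ζ + log (1 + (1 / ζ) ^ 2 - 2 * (1 / ζ) * cos φ) := by
    rw [Lam_eq hk, neg_neg, ← log_mul hH.ne' h0.ne', ← log_mul (by positivity) p1.ne']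
    congr 1
    unfold X; field_simp; ring
  unfold VV
  rw [i0, i1, l1]
  rcases eq_or_lt_of_le hσ with h | h
  · rw [← h, ep_one]; ring
  · have i2 : II k (-1 / σ ^ 2) (-1 + 2 * H k * (1 + cos φ)) =
        -Lam k + log (1 + (-1 / σ ^ 2) ^ 2 - 2 * (-1 / σ ^ 2) * cos φ) := pot_J hk (abs_sq_lt h)
    have hσ0 : 0 < σ := by linarith
    have p2 : 0 < 1 + (-1 / σ ^ 2) ^ 2 - 2 * (-1 / σ ^ 2) * cos φ := by
      have h3 : 1 / σ ^ 2 < 1 := by rw [div_lt_one (by positivity)]; nlinarith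
      have h2 : 0 < 1 / σ ^ 2 := by positivity
      have h4 : (-1 / σ ^ 2 : ℝ) = -(1 / σ ^ 2) := by ring
      rw [h4]
      nlinarith [mul_nonneg h2.le (neg_le_iff_add_nonneg.1 hc'),
        mul_pos (sub_pos.2 h3) (sub_pos.2 h3)]
    have l2 : log (-1 - yy k σ ^ 2 - (-1 + 2 * H k * (1 + cos φ))) =
        -Lam k + 2 * log σ + log (1 + (-1 / σ ^ 2) ^ 2 - 2 * (-1 / σ ^ 2) * cos φ) := by
      have e2 : 2 * log σ = log (σ ^ 2) := by rw [log_pow]; norm_num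
      rw [Lam_eq hk, neg_neg, e2, ← log_mul hH.ne' (by positivity),
        ← log_mul (by positivity) p2.ne', ← log_neg_eq_log, yy_sq hk]
      congr 1
      field_simp; ring
    rw [i2, l2]
    ring

theorem V_out {k ζ σ w : ℝ} (hk : 1 < k) (hζ : 1 < ζ) (hσ : 1 ≤ σ) (hw : 1 < w) (hwζ : w ≠ ζ) :
    VV k ζ σ (X k w) = log ζ - log ((ζ * w - 1) / (ζ - w)) +
      ep k ζ σ * (2 * log σ - log ((w * σ ^ 2 + 1) / (w + σ ^ 2))) +
        MM k ζ σ * (log w - Lam k) := by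
  have hH := H_pos hk
  have h0 : 0 < ζ := by linarith
  have hw0 : 0 < w := by linarith
  have hwa : 1 ≤ |w| := by rw [abs_of_pos hw0]; exact hw.le
  have hsub : ζ - w ≠ 0 := sub_ne_zero.2 (Ne.symm hwζ)
  have hp : 0 < ζ * w - 1 := by nlinarith
  have i0 : II k 0 (X k w) = -Lam k + log w := by
    unfold II
    rw [pot_out hk (by norm_num) hwa, abs_of_pos hw0, sub_zero, abs_of_pos hw0]
    ring
  have i1 : II k (1 / ζ) (X k w) = -Lam k - log w + 2 * (log (ζ * w - 1) - log ζ) := by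
    unfold II
    have h1 : w - 1 / ζ = (ζ * w - 1) / ζ := by field_simp
    rw [pot_out hk (abs_inv_lt hζ) hwa, abs_of_pos hw0, h1, abs_of_pos (by positivity),
      log_div hp.ne' h0.ne']
  have l1 : log (X k ζ - X k w) =
      -Lam k + log (ζ - w) + log (ζ * w - 1) - log ζ - log w := by
    have e1 : X k ζ - X k w = H k * (ζ - w) * (ζ * w - 1) / ζ / w := by
      unfold X; field_simp; ring
    rw [e1, Lam_eq hk, neg_neg, log_div (by positivity) hw0.ne', log_div (by positivity) h0.ne',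
      log_mul (mul_ne_zero hH.ne' hsub) hp.ne', log_mul hH.ne' hsub]
  have l3 : log ((ζ * w - 1) / (ζ - w)) = log (ζ * w - 1) - log (ζ - w) := log_div hp.ne' hsub
  unfold VV
  rw [i0, i1, l1, l3]
  rcases eq_or_lt_of_le hσ with h | h
  · rw [← h, ep_one]; ring
  · have hσ0 : 0 < σ := by linarith
    have i2 : II k (-1 / σ ^ 2) (X k w) =
        -Lam k - log w + 2 * (log (w * σ ^ 2 + 1) - 2 * log σ) := by
      unfold II
      have h1 : w - -1 / σ ^ 2 = (w * σ ^ 2 + 1) / σ ^ 2 := by field_simp; ring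
      rw [pot_out hk (abs_sq_lt h) hwa, abs_of_pos hw0, h1, abs_of_pos (by positivity),
        log_div (by positivity) (by positivity), log_pow]
      norm_num
    have l2 : log (-1 - yy k σ ^ 2 - X k w) =
        -Lam k + log (w + σ ^ 2) + log (w * σ ^ 2 + 1) - log w - 2 * log σ := by
      have e1 : -(-1 - yy k σ ^ 2 - X k w) = H k * (w + σ ^ 2) * (w * σ ^ 2 + 1) / w / σ ^ 2 := by
        rw [yy_sq hk]; unfold X; field_simp; ring
      rw [← log_neg_eq_log, e1, Lam_eq hk, neg_neg, log_div (by positivity) (by positivity),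
        log_div (by positivity) hw0.ne', log_mul (by positivity) (by positivity),
        log_mul hH.ne' (by positivity), log_pow]
      norm_num
    have l4 : log ((w * σ ^ 2 + 1) / (w + σ ^ 2)) = log (w * σ ^ 2 + 1) - log (w + σ ^ 2) :=
      log_div (by positivity) (by positivity)
    rw [i2, l2, l4]
    ring

/-- the derivative computation -/
theorem deriv_id {k ζ σ x : ℝ} (hk : 1 < k) (hζ : 1 < ζ) (hσ : 1 ≤ σ) (hx : 1 < x) (hxζ : x < ζ) :
    MM k ζ σ / x - (ζ / (ζ * x - 1) + 1 / (ζ - x)) -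
      ep k ζ σ * (σ ^ 2 / (x * σ ^ 2 + 1) - 1 / (x + σ ^ 2)) ≤ 0 := by
  have hH := H_pos hk
  have h0 : 0 < ζ := by linarith
  have hx0 : 0 < x := by linarith
  have hσ0 : 0 < σ := by linarith
  have hp : 0 < ζ * x - 1 := by nlinarith
  have hq : 0 < ζ - x := by linarith
  have h3 : 0 < ζ ^ 2 - 1 := by nlinarith
  have f3 : X k ζ + 1 + yy k σ ^ 2 =
      H k * ((ζ + 1) ^ 2 * σ ^ 2 + (σ ^ 2 - 1) ^ 2 * ζ) / (ζ * σ ^ 2) := by
    rw [yy_sq hk]; unfold X; field_simp; ring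
  have f4 : ss k ζ = H k * (ζ ^ 2 - 1) / ζ := by
    unfold ss; field_simp
  have e1 : MM k ζ σ = ((ζ + 1) ^ 2 * σ ^ 2 + (σ ^ 2 - 1) ^ 2 * ζ) / (σ ^ 2 * (ζ ^ 2 - 1)) := by
    unfold MM
    rw [f3, f4]
    have := h3.ne'
    field_simp
  have e2 : ep k ζ σ = ζ * (σ ^ 4 - 1) / (σ ^ 2 * (ζ ^ 2 - 1)) := by
    unfold ep
    rw [f4]
    have := h3.ne'
    field_simp
  have e3 : MM k ζ σ / x - (ζ / (ζ * x - 1) + 1 / (ζ - x)) -
      ep k ζ σ * (σ ^ 2 / (x * σ ^ 2 + 1) - 1 / (x + σ ^ 2)) =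
      -(((ζ + 1) ^ 2 * σ ^ 2 + (σ ^ 2 - 1) ^ 2 * ζ) * ζ * (x ^ 2 - 1) ^ 2 /
        (x * (ζ ^ 2 - 1) * ((ζ * x - 1) * (ζ - x)) * ((x * σ ^ 2 + 1) * (x + σ ^ 2)))) := by
    rw [e1, e2]
    have n1 := hp.ne'
    have n2 := hq.ne'
    have n3 := h3.ne'
    field_simp
    ring
  rw [e3]
  have : 0 ≤ ((ζ + 1) ^ 2 * σ ^ 2 + (σ ^ 2 - 1) ^ 2 * ζ) * ζ * (x ^ 2 - 1) ^ 2 /
        (x * (ζ ^ 2 - 1) * ((ζ * x - 1) * (ζ - x)) * ((x * σ ^ 2 + 1) * (x + σ ^ 2))) := by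
    positivity
  linarith

theorem F_le {k ζ σ w : ℝ} (hk : 1 < k) (hζ : 1 < ζ) (hσ : 1 ≤ σ) (hw : 1 ≤ w) (hwζ : w < ζ) :
    MM k ζ σ * log w - (log (ζ * w - 1) - log (ζ - w)) -
      ep k ζ σ * (log (w * σ ^ 2 + 1) - log (w + σ ^ 2)) ≤ 0 := by
  have hσ0 : 0 < σ := by linarith
  have hd : ∀ x, 1 ≤ x → x < ζ → HasDerivAt (fun x => MM k ζ σ * log x -
      (log (ζ * x - 1) - log (ζ - x)) - ep k ζ σ * (log (x * σ ^ 2 + 1) - log (x + σ ^ 2)))
      (MM k ζ σ / x - (ζ / (ζ * x - 1) + 1 / (ζ - x)) -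
      ep k ζ σ * (σ ^ 2 / (x * σ ^ 2 + 1) - 1 / (x + σ ^ 2))) x := by
    intro x hx1 hx2
    have hx0 : 0 < x := by linarith
    have hp : ζ * x - 1 ≠ 0 := by nlinarith
    have hq : ζ - x ≠ 0 := by linarith
    have d1 : HasDerivAt (fun x : ℝ => ζ * x - 1) ζ x := by
      simpa using ((hasDerivAt_id x).const_mul ζ).sub_const 1
    have d2 : HasDerivAt (fun x : ℝ => ζ - x) (-1) x := by
      simpa using (hasDerivAt_id x).const_sub ζ
    have d3 : HasDerivAt (fun x : ℝ => x * σ ^ 2 + 1) (σ ^ 2) x := by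
      simpa using ((hasDerivAt_id x).mul_const (σ ^ 2)).add_const 1
    have d4 : HasDerivAt (fun x : ℝ => x + σ ^ 2) 1 x := by
      simpa using (hasDerivAt_id x).add_const (σ ^ 2)
    have := (((hasDerivAt_log hx0.ne').const_mul (MM k ζ σ)).sub
      ((d1.log hp).sub (d2.log hq))).sub (((d3.log (by positivity)).sub
        (d4.log (by positivity))).const_mul (ep k ζ σ))
    refine this.congr_deriv ?_
    ring
  have hanti : AntitoneOn (fun x => MM k ζ σ * log x -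
      (log (ζ * x - 1) - log (ζ - x)) - ep k ζ σ * (log (x * σ ^ 2 + 1) - log (x + σ ^ 2)))
      (Icc 1 w) := by
    refine antitoneOn_of_deriv_nonpos (convex_Icc 1 w) ?_ ?_ ?_
    · intro x hx
      exact (hd x hx.1 (hx.2.trans_lt hwζ)).continuousAt.continuousWithinAt
    · intro x hx
      rw [interior_Icc] at hx
      exact (hd x hx.1.le (hx.2.trans hwζ)).differentiableAt.differentiableWithinAt
    · intro x hx
      rw [interior_Icc] at hx
      rw [(hd x hx.1.le (hx.2.trans hwζ)).deriv]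
      exact deriv_id hk hζ hσ hx.1 (hx.2.trans hwζ)
  have := hanti (left_mem_Icc.2 hw) (right_mem_Icc.2 hw) hw
  refine this.trans ?_
  simp only [log_one, mul_one, one_mul]
  rw [add_comm (σ ^ 2) 1]
  simp

theorem MM_eq {k ζ σ : ℝ} (hk : 1 < k) (hζ : 1 < ζ) (hσ : 1 ≤ σ) :
    MM k ζ σ = (ζ + 1) / (ζ - 1) + ep k ζ σ * ((σ ^ 2 - 1) / (σ ^ 2 + 1)) := by
  have hH := H_pos hk
  have h0 : 0 < ζ := by linarith
  have hσ0 : 0 < σ := by linarith
  have h3 : 0 < ζ - 1 := by linarith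
  have h4 : 0 < ζ ^ 2 - 1 := by nlinarith
  have f4 : ss k ζ = H k * ((ζ - 1) * (ζ + 1)) / ζ := by
    unfold ss; field_simp
    ring
  unfold MM ep
  rw [f4, yy_sq hk]
  unfold X
  have := h3.ne'
  field_simp
  ring

theorem V_le {k ζ σ t : ℝ} (hk : 1 < k) (hζ : 1 < ζ) (hσ : 1 ≤ σ) (ht : -1 ≤ t)
    (htz : t < X k ζ) :
    VV k ζ σ t ≤ log ζ + ep k ζ σ * (2 * log σ) - MM k ζ σ * Lam k := by
  have hH := H_pos hk
  rcases le_or_gt t (-1 + 4 * H k) with h | h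
  · -- in J
    have e : t = -1 + 2 * H k * (1 + cos (arccos ((t + 1) / (2 * H k) - 1))) := by
      rw [cos_arccos]
      · field_simp; ring
      · have : 0 ≤ (t + 1) / (2 * H k) := div_nonneg (by linarith) (by linarith)
        linarith
      · have : (t + 1) / (2 * H k) ≤ 2 := by rw [div_le_iff₀ (by linarith)]; linarith
        linarith
    rw [e, V_J hk hζ hσ]
  · obtain ⟨s, hs⟩ : ∃ s, s = (t + 1) / (2 * H k) - 1 := ⟨_, rfl⟩
    have hs1 : 1 < s := by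
      rw [hs, lt_sub_iff_add_lt, lt_div_iff₀ (by linarith)]; linarith
    have hsq : 0 < s ^ 2 - 1 := by nlinarith
    obtain ⟨w, hw⟩ : ∃ w, w = s + √(s ^ 2 - 1) := ⟨_, rfl⟩
    have hsqrt : √(s ^ 2 - 1) ^ 2 = s ^ 2 - 1 := sq_sqrt hsq.le
    have hsp : 0 < √(s ^ 2 - 1) := sqrt_pos.2 hsq
    have hw1 : 1 < w := by rw [hw]; linarith
    have hw0 : 0 < w := by linarith
    have hww : w ^ 2 + 1 = 2 * s * w := by rw [hw]; nlinarith
    have hX : X k w = t := by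
      unfold X
      have h5 : t = -1 + 2 * H k * (s + 1) := by rw [hs]; field_simp; ring
      rw [h5]
      have : (w + 1) ^ 2 = 2 * (s + 1) * w := by linarith [hww, sq_nonneg w, (by ring : (w + 1) ^ 2 = w ^ 2 + 1 + 2 * w)]
      rw [this]
      field_simp
    have hwζ : w < ζ := by
      by_contra hc
      push Not at hc
      rw [← hX] at htz
      have : X k w - X k ζ = H k * (w - ζ) * (ζ * w - 1) / ζ / w := by
        unfold X
        have : 0 < ζ := by linarith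
        field_simp; ring
      have h6 : 0 ≤ H k * (w - ζ) * (ζ * w - 1) / ζ / w := by
        have h7 : 0 ≤ w - ζ := by linarith
        have h8 : 0 ≤ ζ * w - 1 := by nlinarith
        have : 0 < ζ := by linarith
        positivity
      linarith
    rw [← hX, V_out hk hζ hσ hw1 hwζ.ne]
    have h9 := F_le hk hζ hσ hw1.le hwζ
    have hp : 0 < ζ * w - 1 := by nlinarith
    have hσ0 : 0 < σ := by linarith
    rw [log_div hp.ne' (by linarith), log_div (by positivity) (by positivity)]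
    nlinarith

theorem X_kk {k : ℝ} (hk : 1 < k) : X k k = 1 := by
  unfold X H
  have : 0 < k := by linarith
  field_simp
  ring

theorem V_one {k ζ σ : ℝ} (hk : 1 < k) (hζ : 1 < ζ) (hζk : ζ ≠ k) (hσ : 1 ≤ σ) :
    VV k ζ σ 1 = log ζ - gr k ζ +
      ep k ζ σ * (2 * log σ - log ((k * σ ^ 2 + 1) / (k + σ ^ 2))) +
        MM k ζ σ * (log k - Lam k) := by
  have h := V_out hk hζ hσ hk (Ne.symm hζk)
  rw [X_kk hk] at h
  rw [h]
  have : log ((ζ * k - 1) / (ζ - k)) = gr k ζ := by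
    unfold gr
    rw [← log_neg_eq_log]
    congr 1
    rw [← div_neg]
    congr 1
    · ring
    · ring
  rw [this]

theorem test_ineq {c t : ι → ℝ} (S : Sys c t) {k ζ σ m : ℝ} (hk : 1 < k) (hζ : 1 < ζ) (hζk : ζ ≠ k)
    (hσ : 1 ≤ σ) (hm : m = ∑ i, if t i = 1 then c i else 0) (ht : ∀ i, t i < X k ζ ∨ t i = 1) :
    pot c t (X k ζ) + H k * (σ ^ 2 - 1 / σ ^ 2) / ss k ζ * pot c t (-1 - yy k σ ^ 2)
      + (1 / π) * ∫ θ in (0:ℝ)..π, wt k ζ σ θ * pot c t (-1 + 2 * H k * (1 + cos θ))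
      ≤ Phi k m ζ + H k * (σ ^ 2 - 1 / σ ^ 2) / ss k ζ * QQ k m σ := by
  have e1 : ∫ θ in (0:ℝ)..π, wt k ζ σ θ * pot c t (-1 + 2 * H k * (1 + cos θ)) =
      ∑ i, c i * ∫ θ in (0:ℝ)..π, wt k ζ σ θ * log (-1 + 2 * H k * (1 + cos θ) - t i) := by
    rw [← Finset.sum_congr rfl fun i _ => intervalIntegral.integral_const_mul (c i) _,
      ← intervalIntegral.integral_finsetSum]
    · refine intervalIntegral.integral_congr fun θ _ => ?_
      simp only [pot, Finset.mul_sum]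
      exact Finset.sum_congr rfl fun i _ => by ring
    · intro i _
      exact ((wt_int (t i) hk hζ hσ).1).const_mul (c i)
  have e2 : pot c t (X k ζ) + H k * (σ ^ 2 - 1 / σ ^ 2) / ss k ζ * pot c t (-1 - yy k σ ^ 2)
      + (1 / π) * ∫ θ in (0:ℝ)..π, wt k ζ σ θ * pot c t (-1 + 2 * H k * (1 + cos θ)) =
      ∑ i, c i * VV k ζ σ (t i) := by
    rw [e1]
    unfold pot
    rw [Finset.mul_sum, Finset.mul_sum, ← Finset.sum_add_distrib, ← Finset.sum_add_distrib]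
    refine Finset.sum_congr rfl fun i _ => ?_
    have h := (wt_int (t i) hk hζ hσ).2
    unfold VV
    rw [← h]
    have : ep k ζ σ = H k * (σ ^ 2 - 1 / σ ^ 2) / ss k ζ := rfl
    rw [← this]
    ring
  rw [e2]
  set W1 := log ζ - gr k ζ +
      ep k ζ σ * (2 * log σ - log ((k * σ ^ 2 + 1) / (k + σ ^ 2))) +
        MM k ζ σ * (log k - Lam k) with hW1
  set WJ := log ζ + ep k ζ σ * (2 * log σ) - MM k ζ σ * Lam k with hWJ
  have e3 : ∑ i, c i * VV k ζ σ (t i) ≤ ∑ i, (c i * WJ + (if t i = 1 then c i else 0) * (W1 - WJ)) := by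
    refine Finset.sum_le_sum fun i _ => ?_
    split_ifs with h
    · rw [h, V_one hk hζ hζk hσ, ← hW1]
      linarith
    · have h1 := V_le hk hζ hσ (S.mem i).1 ((ht i).resolve_right h)
      have h2 := mul_le_mul_of_nonneg_left h1 (S.pos i).le
      rw [← hWJ] at h2
      linarith
  refine e3.trans ?_
  rw [Finset.sum_add_distrib, ← Finset.sum_mul, ← Finset.sum_mul, S.sum, ← hm, hW1, hWJ,
    MM_eq hk hζ hσ]
  have : ep k ζ σ = H k * (σ ^ 2 - 1 / σ ^ 2) / ss k ζ := rfl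
  rw [← this]
  unfold Phi QQ
  refine le_of_eq ?_
  ring

end EHP
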